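import Pool.Agent.H713Z.Prim.Main

namespace Pool.Agent.Results.MP_5801e7_an.ADualNotPrimary

open Pool.Agent.H713Z.Prim

universe u

/-- Over the real and over the complex scalars there is a primary Banach space whose dual splits
into two closed subspaces neither of which is isomorphic to the dual. -/
theorem result (𝕜 : Type u) [RCLike 𝕜] :
    ∃ (X : Type u) (_ : NormedAddCommGroup X) (_ : NormedSpace 𝕜 X) (_ : CompleteSpace X),
      Primary 𝕜 X ∧ SplitsBadly 𝕜 (StrongDual 𝕜 X) :=
  main 𝕜

end Pool.Agent.Results.MP_5801e7_an.ADualNotPrimary
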